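import Pool.Agent.Lib.Amenable.Defs

set_option autoImplicit false

namespace Pool.Agent.P.MP_71554c_al

open Pool.Agent.Lib.Amenable

/-- Every nontrivial element survives in some homomorphism to an amenable group. -/
def ResiduallyAmenable (G : Type) [Group G] : Prop :=
  ∀ g : G, g ≠ 1 → ∃ (A : Type) (_ : Group A) (f : G →* A), IsAmenable A ∧ f g ≠ 1

/-- `H` is a retract of a finite index subgroup of `G` containing it. -/
def VirtualRetract {G : Type} [Group G] (H : Subgroup G) : Prop :=
  ∃ K : Subgroup G, K.FiniteIndex ∧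
    ∃ (hle : H ≤ K) (ρ : K →* H), ∀ h : H, ρ (Subgroup.inclusion hle h) = h

/-- `G` has a cyclic subgroup of finite index. -/
def VirtuallyCyclic (G : Type) [Group G] : Prop :=
  ∃ C : Subgroup G, C.FiniteIndex ∧ IsCyclic C

end Pool.Agent.P.MP_71554c_al
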