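import Pool.Agent.P.MP_71554c_al.Swindle

set_option autoImplicit false

namespace Pool.Agent.P.MP_71554c_al

open Pool.Agent.Lib.Amalgam Pool.Agent.Lib.Amenable Function Subgroup Monoid

variable {ι : Type} {G₀ : Type} [Group G₀] {G : ι → Type} [∀ i, Group (G i)]
  (φ : ∀ i, G₀ →* G i)

/-- reduced words: length, first index, last index, value; all suffixes satisfy `S` -/
inductive W (S : PushoutI φ → Prop) : ℕ → ι → ι → PushoutI φ → Prop
  | one (i : ι) (x : G i) (hx : x ∉ (φ i).range) (hS : S (PushoutI.of i x)) :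
      W S 1 i i (PushoutI.of i x)
  | cons (j : ι) (y : G j) (hy : y ∉ (φ j).range) (n : ℕ) (i l : ι) (g : PushoutI φ)
      (hji : j ≠ i) (hw : W S n i l g) (hS : S (PushoutI.of j y * g)) :
      W S (n + 1) j l (PushoutI.of j y * g)

variable {φ}

lemma W.mono {S S' : PushoutI φ → Prop} (h : ∀ g, S g → S' g) {n i l g} (hw : W φ S n i l g) :
    W φ S' n i l g := by
  induction hw with
  | one i x hx hS => exact W.one i x hx (h _ hS)
  | cons j y hy n i l g hji _ hS ih => exact W.cons j y hy n i l g hji ih (h _ hS)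

lemma W.prop {S : PushoutI φ → Prop} {n i l g} (hw : W φ S n i l g) : S g := by
  cases hw <;> assumption

lemma W.pos {S : PushoutI φ → Prop} {n i l g} (hw : W φ S n i l g) : 0 < n := by
  cases hw <;> omega

lemma W.snoc {n i l g} (hw : W φ (fun _ => True) n i l g) : n = 1 ∨
    ∃ (g' : PushoutI φ) (l' : ι) (x : G l), W φ (fun _ => True) (n - 1) i l' g' ∧ l' ≠ l ∧
      x ∉ (φ l).range ∧ g = g' * PushoutI.of l x := by
  induction hw with
  | one i x hx hS => exact Or.inl rfl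
  | cons j y hy n i l g hji hw hS ih =>
    right
    rcases ih with rfl | ⟨g', l', x, h1, h2, h3, rfl⟩
    · cases hw with
      | one _ x hx _ => exact ⟨_, j, x, W.one j y hy trivial, hji, hx, rfl⟩
      | cons _ _ _ _ _ _ _ _ hw' _ => exact absurd hw'.pos (lt_irrefl 0)
    · have hn := hw.pos
      obtain ⟨m, rfl⟩ : ∃ m, n = m + 1 := ⟨n - 1, by omega⟩
      exact ⟨_, l', x, W.cons j y hy _ i l' g' hji h1 trivial, h2, h3, (mul_assoc _ _ _).symm⟩

lemma normal_form (g : PushoutI φ) : ∃ h, g = PushoutI.base φ h ∨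
    ∃ n i l w, W φ (fun _ => True) n i l w ∧ g = PushoutI.base φ h * w := by
  let Good : PushoutI φ → Prop := fun g => ∃ h, g = PushoutI.base φ h ∨
    ∃ n i l w, W φ (fun _ => True) n i l w ∧ g = PushoutI.base φ h * w
  have hbase : ∀ k g, Good g → Good (PushoutI.base φ k * g) := by
    rintro k g ⟨h, rfl | ⟨n, i, l, w, hw, rfl⟩⟩
    · exact ⟨k * h, Or.inl (map_mul _ _ _).symm⟩
    · exact ⟨k * h, Or.inr ⟨n, i, l, w, hw, by rw [map_mul, mul_assoc]⟩⟩
  have hof0 : ∀ j (y : G j), Good (PushoutI.of j y) := by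
    intro j y
    by_cases hy : y ∈ (φ j).range
    · obtain ⟨k, rfl⟩ := hy
      exact ⟨k, Or.inl (PushoutI.of_apply_eq_base φ j k)⟩
    · exact ⟨1, Or.inr ⟨1, j, j, _, W.one j y hy trivial, by simp⟩⟩
  have hof1 : ∀ j (y : G j) n i l w, W φ (fun _ => True) n i l w → j ≠ i →
      Good (PushoutI.of j y * w) := by
    intro j y n i l w hw hji
    by_cases hy : y ∈ (φ j).range
    · obtain ⟨k, rfl⟩ := hy
      exact ⟨k, Or.inr ⟨n, i, l, w, hw, by rw [PushoutI.of_apply_eq_base]⟩⟩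
    · exact ⟨1, Or.inr ⟨n + 1, j, l, _, W.cons j y hy n i l w hji hw trivial, by simp⟩⟩
  have hof : ∀ j (y : G j) g, Good g → Good (PushoutI.of j y * g) := by
    rintro j y g ⟨h, rfl | ⟨n, i, l, w, hw, rfl⟩⟩
    · rw [← PushoutI.of_apply_eq_base φ j, ← map_mul]
      exact hof0 _ _
    · rw [← PushoutI.of_apply_eq_base φ j, ← mul_assoc, ← map_mul]
      by_cases hji : j = i
      · subst hji
        cases hw with
        | one _ x hx _ =>
          rw [← map_mul]
          exact hof0 _ _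
        | cons _ x hx n i' _ g' hji' hw' _ =>
          rw [← mul_assoc, ← map_mul]
          exact hof1 _ _ _ _ _ _ hw' hji'
      · exact hof1 _ _ _ _ _ _ hw hji
  have key : ∀ g g', Good g' → Good (g * g') := by
    intro g
    induction g using PushoutI.induction_on with
    | of i x => exact hof i x
    | base h => exact hbase h
    | mul x y hx hy => intro g' hg'; rw [mul_assoc]; exact hx _ (hy _ hg')
  simpa using key g 1 ⟨1, Or.inl (map_one _).symm⟩

/-- `Θ` separates `g` from the amalgamated subgroup -/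
def Sep {A : Type} [Group A] (Θ : PushoutI φ →* A) (g : PushoutI φ) : Prop :=
  ∀ h, Θ g ≠ Θ (PushoutI.base φ h)

lemma Sep.left {A B : Type} [Group A] [Group B] {Θ : PushoutI φ →* A} (Θ' : PushoutI φ →* B)
    {g : PushoutI φ} (h : Sep Θ g) : Sep (Θ.prod Θ') g :=
  fun k hk => h k (congrArg Prod.fst hk)

lemma Sep.right {A B : Type} [Group A] [Group B] (Θ : PushoutI φ →* A) {Θ' : PushoutI φ →* B}
    {g : PushoutI φ} (h : Sep Θ' g) : Sep (Θ.prod Θ') g :=
  fun k hk => h k (congrArg Prod.snd hk)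

lemma magnus {A : Type} [Group A] (hA : IsAmenable A) (Θ : PushoutI φ →* A) :
    ∃ (A' : Type) (_ : Group A') (Θ' : PushoutI φ →* A'), IsAmenable A' ∧
      ∀ n i l l' g (x : G l), W φ (Sep Θ) n i l' g → l' ≠ l → Sep Θ (PushoutI.of l x) →
        Sep Θ' (g * PushoutI.of l x) := by
  classical
  let A₀ : Subgroup A := (Θ.comp (PushoutI.base φ)).range
  let e : A ⧸ A₀ := ((1 : A) : A ⧸ A₀)
  have he : ∀ a : A, a • e = e ↔ a ∈ A₀ := by
    intro a
    simp only [e, MulAction.Quotient.smul_mk, smul_eq_mul, mul_one]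
    rw [eq_comm, QuotientGroup.eq]
    simp
  have hsep : ∀ g, Sep Θ g → Θ g • e ≠ e := by
    intro g hg h
    obtain ⟨k, hk⟩ := (he _).mp h
    exact hg k hk.symm
  let ρ : A →* Wr (ι × (A ⧸ A₀)) (Multiplicative ℤ) := Wr.ofCocycle
    (fun a ω => (ω.1, a • ω.2)) (fun _ _ => 1) (by simp) (by intros; simp [mul_smul]) (by simp)
  let u : ι → ι × (A ⧸ A₀) → Multiplicative ℤ := fun i ω =>
    if ω = (i, e) then Multiplicative.ofAdd 1 else 1
  let Φi : ∀ i, G i →* Wr (ι × (A ⧸ A₀)) (Multiplicative ℤ) := fun i =>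
    (MulAut.conj (Wr.inl (u i))).toMonoidHom.comp (ρ.comp (Θ.comp (PushoutI.of i)))
  have hp : ∀ i x ω, (Φi i x).p ω = (ω.1, Θ (PushoutI.of i x) • ω.2) := by
    intro i x ω
    simp [Φi, ρ]
  have hf : ∀ i x ω, (Φi i x).f ω = u i (ω.1, Θ (PushoutI.of i x) • ω.2) * (u i ω)⁻¹ := by
    intro i x ω
    simp [Φi, ρ]
  have hcomp : ∀ i, (Φi i).comp (φ i) = ρ.comp (Θ.comp (PushoutI.base φ)) := by
    intro i
    ext h ω : 3
    · rw [MonoidHom.comp_apply, hf, PushoutI.of_apply_eq_base]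
      have h1 : Θ (PushoutI.base φ h) • e = e := (he _).mpr ⟨h, rfl⟩
      have : u i (ω.1, Θ (PushoutI.base φ h) • ω.2) = u i ω := by
        simp only [u]
        congr 1
        rw [Prod.ext_iff, Prod.ext_iff]
        simp only
        rw [← h1, smul_left_cancel_iff, h1]
      rw [this]
      simp [ρ]
    · rw [MonoidHom.comp_apply, hp, PushoutI.of_apply_eq_base]
      rfl
  let Φ := PushoutI.lift Φi _ hcomp
  have hΦof : ∀ i x, Φ (PushoutI.of i x) = Φi i x := fun i x => PushoutI.lift_of _ _ _ _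
  have hΦbase : ∀ h, Φ (PushoutI.base φ h) = ρ (Θ (PushoutI.base φ h)) := fun h =>
    PushoutI.lift_base _ _ _ _
  let E : Subgroup (Wr (ι × (A ⧸ A₀)) (Multiplicative ℤ)) :=
    { carrier := {w | w.p ∈ (Wr.perm.comp ρ).range ∧ w.f ∈ finSupp _ _}
      one_mem' := ⟨one_mem _, one_mem _⟩
      mul_mem' := by
        rintro a b ⟨ha1, ha2⟩ ⟨hb1, hb2⟩
        refine ⟨mul_mem ha1 hb1, ?_⟩
        refine ((Set.Finite.preimage b.p.injective.injOn ha2).union hb2).subset (fun ω hω => ?_)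
        by_contra hc
        simp only [Set.mem_union, Set.mem_preimage, mem_mulSupport, not_or, not_not] at hc
        exact hω (by rw [Wr.mul_f, hc.1, hc.2, mul_one])
      inv_mem' := by
        rintro a ⟨ha1, ha2⟩
        refine ⟨inv_mem ha1, ?_⟩
        refine (Set.Finite.preimage (a.p⁻¹).injective.injOn ha2).subset (fun ω hω => ?_)
        by_contra hc
        simp only [Set.mem_preimage, mem_mulSupport, not_not] at hc
        exact hω (by rw [Wr.inv_f, hc, inv_one]) }
  have hE : IsAmenable E := amenable_sub_wr E _ _ (amenable_range hA _)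
    (amenable_int.of_finSupp _) (fun w hw => hw.1) (fun w hw _ => hw.2)
  have hρE : ∀ a, ρ a ∈ E := fun a => ⟨⟨a, rfl⟩, one_mem (finSupp _ _)⟩
  have huE : ∀ i, Wr.inl (u i) ∈ E := fun i => ⟨one_mem _,
    (Set.finite_singleton (i, e)).subset (fun ω hω => by
      by_contra hc
      exact hω (if_neg hc))⟩
  have hΦE : ∀ g, Φ g ∈ E := by
    intro g
    induction g using PushoutI.induction_on with
    | of i x =>
      rw [hΦof]
      exact E.mul_mem (E.mul_mem (huE i) (hρE _)) (E.inv_mem (huE i))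
    | base h => rw [hΦbase]; exact hρE _
    | mul x y hx hy => rw [map_mul]; exact E.mul_mem hx hy
  have hΦp : ∀ g ω, (Φ g).p ω = (ω.1, Θ g • ω.2) := by
    intro g
    induction g using PushoutI.induction_on with
    | of i x => rw [hΦof]; exact hp i x
    | base h => rw [hΦbase]; exact fun _ => rfl
    | mul x y hx hy =>
      intro ω
      rw [map_mul, Wr.mul_p, Equiv.Perm.mul_apply, hy, hx, map_mul, mul_smul]
  have key : ∀ l n i l' g, W φ (Sep Θ) n i l' g → l' ≠ l → (Φ g).f (l, e) = 1 := by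
    intro l n i l' g hw
    induction hw with
    | one i x hx hS =>
      intro h
      rw [hΦof, hf]
      simp [u, h.symm]
    | cons j y hy n i l' g hji hw hS ih =>
      intro h
      rw [map_mul, Wr.mul_f, ih h, hΦp, hΦof, hf, ← mul_smul, ← map_mul]
      simp only [u, Prod.mk.injEq, hsep _ hS, hsep _ hw.prop, and_false, if_false, inv_one,
        mul_one]
  refine ⟨E, inferInstance, Φ.codRestrict E hΦE, hE, ?_⟩
  intro n i l l' g x hw hl hx h hh
  have h1 : Φ (g * PushoutI.of l x) = Φ (PushoutI.base φ h) := congrArg Subtype.val hh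
  have h2 := congrFun (congrArg Wr.f h1) (l, (Θ (PushoutI.of l x))⁻¹ • e)
  rw [hΦbase, map_mul, Wr.mul_f, hΦp, smul_inv_smul, key l n i l' g hw hl, hΦof, hf,
    smul_inv_smul] at h2
  have h3 : (Θ (PushoutI.of l x))⁻¹ • e ≠ e := by
    rw [Ne, inv_smul_eq_iff]
    exact (hsep _ hx).symm
  simp [u, h3, ρ] at h2

theorem sep_words (h1 : ∀ i (x : G i), x ∉ (φ i).range →
      ∃ (A : Type) (_ : Group A) (Θ : PushoutI φ →* A), IsAmenable A ∧ Sep Θ (PushoutI.of i x)) :
    ∀ n i l g, W φ (fun _ => True) n i l g →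
      ∃ (A : Type) (_ : Group A) (Θ : PushoutI φ →* A), IsAmenable A ∧ W φ (Sep Θ) n i l g := by
  intro n
  induction n with
  | zero => intro i l g hw; exact absurd hw.pos (lt_irrefl 0)
  | succ n ih =>
    intro i l g hw
    have hsn := hw.snoc
    cases hw with
    | one _ x hx _ =>
      obtain ⟨A, _, Θ, hA, hΘ⟩ := h1 i x hx
      exact ⟨A, inferInstance, Θ, hA, W.one i x hx hΘ⟩
    | cons _ y hy _ i' _ g₁ hji hw₁ _ =>
      have hn := hw₁.pos
      obtain ⟨g', l', x, k1, k2, k3, k4⟩ := hsn.resolve_left (by omega)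
      obtain ⟨A₁, _, Θ₁, hA₁, hΘ₁⟩ := ih _ _ _ hw₁
      obtain ⟨A₂, _, Θ₂, hA₂, hΘ₂⟩ := ih _ _ _ k1
      obtain ⟨A₃, _, Θ₃, hA₃, hΘ₃⟩ := h1 l x k3
      obtain ⟨A₄, _, Θ₄, hA₄, hΘ₄⟩ := magnus (hA₂.prod hA₃) (Θ₂.prod Θ₃)
      have h4 := hΘ₄ _ _ _ _ _ x (hΘ₂.mono (fun _ h => h.left Θ₃)) k2 (hΘ₃.right Θ₂)
      rw [← k4] at h4
      exact ⟨A₁ × A₄, inferInstance, Θ₁.prod Θ₄, hA₁.prod hA₄,
        W.cons i y hy _ i' l g₁ hji (hΘ₁.mono (fun _ h => h.left Θ₄)) (h4.right Θ₁)⟩

end Pool.Agent.P.MP_71554c_al
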