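import Pool.Agent.P.MP_71554c_al.Defs
import Pool.Agent.P.MP_71554c_al.Magnus
import Pool.Agent.Lib.Amalgam.Setup

set_option autoImplicit false

namespace Pool.Agent.P.MP_71554c_al

open Pool.Agent.Lib.Amalgam Pool.Agent.Lib.Amenable Function Subgroup Monoid

variable {ι : Type} {G₀ : Type} [Group G₀] {G : ι → Type} [∀ i, Group (G i)]
  {φ : ∀ i, G₀ →* G i}

/-- Extension property: an amenable quotient of a finite index normal subgroup of a factor is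
seen by an amenable quotient of the amalgam. -/
def Ext (φ : ∀ i, G₀ →* G i) (i : ι) (V : Subgroup (G i)) (s : G i) : Prop :=
  ∀ (A : Type) [Group A] (ψ : V →* A), IsAmenable A →
    ∃ (B : Type) (_ : Group B) (Θ : PushoutI φ →* B), IsAmenable B ∧
      ∀ g : G i, Θ (PushoutI.of i g) = 1 → ∃ h : s⁻¹ * g * s ∈ V, ψ ⟨_, h⟩ = 1

lemma sep_of_ext (i : ι) (hG : ResiduallyAmenable (G i)) (V : Subgroup (G i)) (s : G i)
    (hE : Ext φ i V s) {A₀ : Type} [Group A₀] (hA₀ : IsAmenable A₀) (α : V →* A₀)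
    (hα : ∀ h (hh : s⁻¹ * φ i h * s ∈ V), α ⟨_, hh⟩ = 1 → h = 1) (x : G i)
    (hx : x ∉ (φ i).range) :
    ∃ (A : Type) (_ : Group A) (Θ : PushoutI φ →* A), IsAmenable A ∧ Sep Θ (PushoutI.of i x) := by
  have hψ : ∃ (A : Type) (_ : Group A) (ψ : G i →* A), IsAmenable A ∧
      ∀ h (hh : s⁻¹ * ((φ i h)⁻¹ * x) * s ∈ V), α ⟨_, hh⟩ = 1 →
        ψ (s⁻¹ * ((φ i h)⁻¹ * x) * s) ≠ 1 := by
    by_cases hb : ∃ h, ∃ hh : s⁻¹ * ((φ i h)⁻¹ * x) * s ∈ V, α ⟨_, hh⟩ = 1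
    · obtain ⟨h₀, hh₀, e₀⟩ := hb
      obtain ⟨A, _, ψ, hA, hψ⟩ := hG (s⁻¹ * ((φ i h₀)⁻¹ * x) * s) (fun h => hx ⟨h₀, by
        have : x = φ i h₀ * s * (s⁻¹ * ((φ i h₀)⁻¹ * x) * s) * s⁻¹ := by group
        rw [this, h]
        group⟩)
      refine ⟨A, inferInstance, ψ, hA, fun h hh e => ?_⟩
      have e1 : s⁻¹ * φ i (h⁻¹ * h₀) * s =
          (s⁻¹ * ((φ i h)⁻¹ * x) * s) * (s⁻¹ * ((φ i h₀)⁻¹ * x) * s)⁻¹ := by
        rw [map_mul, map_inv]
        group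
      have hm : s⁻¹ * φ i (h⁻¹ * h₀) * s ∈ V := by
        rw [e1]; exact V.mul_mem hh (V.inv_mem hh₀)
      have e2 : (⟨_, hm⟩ : V) = ⟨_, hh⟩ * (⟨_, hh₀⟩ : V)⁻¹ := Subtype.ext e1
      have e3 := hα _ hm (by rw [e2, map_mul, map_inv, e, e₀]; simp)
      rw [inv_mul_eq_one] at e3
      rw [e3]
      exact hψ
    · exact ⟨Unit, inferInstance, 1, amenable_of_finite, fun h hh e => absurd ⟨h, hh, e⟩ hb⟩
  obtain ⟨A, _, ψ, hA, hψ⟩ := hψ
  obtain ⟨B, _, Θ, hB, hΘ⟩ := hE (A × A₀) ((ψ.comp V.subtype).prod α) (hA.prod hA₀)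
  refine ⟨B, inferInstance, Θ, hB, fun h hh => ?_⟩
  obtain ⟨h1, h2⟩ := hΘ ((φ i h)⁻¹ * x) (by
    rw [map_mul, map_inv, PushoutI.of_apply_eq_base, map_mul, map_inv, hh, inv_mul_cancel])
  exact hψ h h1 (congrArg Prod.snd h2) (congrArg Prod.fst h2)

lemma ext_of_hom [DecidableEq ι] [Finite ι] (C : Subgroup G₀) [C.FiniteIndex]
    (V : ∀ i, Subgroup (G i))
    [hn : ∀ i, (V i).Normal] (hV : ∀ i h, φ i h ∈ V i ↔ h ∈ C) (T : ι → Type)
    [∀ i, Finite (T i)] (σ : ∀ i, T i → G i)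
    (hσ : ∀ i (g : G i), ∃! p : (G₀ ⧸ C) × T i, (φ i p.1.out * σ i p.2)⁻¹ * g ∈ V i)
    (i₀ : ι) (ω : (G₀ ⧸ C) × ∀ j, T j)
    (H : ∀ (A : Type) [Group A] (ψ : V i₀ →* A), IsAmenable A →
      ∃ (B : Type) (_ : Group B) (J : ∀ i, (∀ j, T j) → V i →* B) (b : ι → (∀ j, T j) → B)
        (w : (∀ j, T j) → C →* B), IsAmenable B ∧ (∀ i τ t, J i (update τ i t) = J i τ) ∧
        (∀ i τ (x : C) (hx : (σ i (τ i))⁻¹ * φ i x * σ i (τ i) ∈ V i),
          (b i τ)⁻¹ * J i τ ⟨_, hx⟩ * b i τ = w τ x) ∧ ∀ v, J i₀ ω.2 v = 1 → ψ v = 1) :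
    Ext φ i₀ (V i₀) (φ i₀ ω.1.out * σ i₀ (ω.2 i₀)) := by
  intro A _ ψ hA
  obtain ⟨B, _, J, b, w, hB, hJ, hw, hψ⟩ := H A ψ hA
  obtain ⟨Θ, h1, h2, -, -⟩ := exists_hom φ C V hV T σ hσ J hJ b w hw
  refine ⟨_, inferInstance, Θ, amenable_wr hB, fun g hg => ?_⟩
  have hgV : g ∈ V i₀ := (h1 i₀ g ω).mp (by rw [hg]; rfl)
  have hgs : (φ i₀ ω.1.out * σ i₀ (ω.2 i₀))⁻¹ * g * (φ i₀ ω.1.out * σ i₀ (ω.2 i₀)) ∈ V i₀ := by
    simpa using (hn i₀).conj_mem _ hgV (φ i₀ ω.1.out * σ i₀ (ω.2 i₀))⁻¹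
  refine ⟨hgs, hψ _ ?_⟩
  have := h2 i₀ g ω hgs
  rw [hg, Wr.one_f, eq_comm, mul_assoc, inv_mul_eq_one, eq_comm, mul_eq_right] at this
  exact this

/-- data for the finite case -/
lemma data_finite [Finite ι] [Finite G₀] (hφ : ∀ i, Injective (φ i))
    (hvr : ∀ i, VirtualRetract (φ i).range) (i₀ : ι) :
    ∃ (V : Subgroup (G i₀)) (s : G i₀) (A₀ : Type) (_ : Group A₀) (α : V →* A₀),
      Ext φ i₀ V s ∧ IsAmenable A₀ ∧
      ∀ h (hh : s⁻¹ * φ i₀ h * s ∈ V), α ⟨_, hh⟩ = 1 → h = 1 := by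
  classical
  choose K hK hKle ρ hρ using hvr
  have hfin : ∀ i, Finite (φ i).range := fun i =>
    Finite.of_surjective _ (φ i).rangeRestrict_surjective
  have hfi : ∀ i, ((ρ i).ker.map (K i).subtype).FiniteIndex := fun i => fi_map_subtype _ _
  let V : ∀ i, Subgroup (G i) := fun i => ((ρ i).ker.map (K i).subtype).normalCore
  have hV : ∀ i h, φ i h ∈ V i ↔ h ∈ (⊥ : Subgroup G₀) := by
    intro i h
    rw [mem_bot]
    constructor
    · intro hh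
      obtain ⟨y, hy, e⟩ := normalCore_le _ hh
      have e1 : y = inclusion (hKle i) ⟨φ i h, h, rfl⟩ := Subtype.ext e
      have e2 := MonoidHom.mem_ker.mp hy
      rw [e1, hρ] at e2
      exact hφ i ((congrArg Subtype.val e2).trans (map_one _).symm)
    · rintro rfl
      rw [map_one]
      exact one_mem _
  choose T hT σ hσ using fun i => exists_section (φ i) ⊥ (V i) (hV i)
  let ω : (G₀ ⧸ (⊥ : Subgroup G₀)) × ∀ j, T j := ((1 : G₀), fun j => (hσ j 1).exists.choose.2)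
  refine ⟨V i₀, _, Unit, inferInstance, 1, ext_of_hom ⊥ V hV T σ hσ i₀ ω ?_, amenable_of_finite,
    fun h hh _ => ?_⟩
  · intro A _ ψ hA
    refine ⟨A, inferInstance, fun i _ => update (fun i => (1 : V i →* A)) i₀ ψ i, fun _ _ => 1,
      fun _ => 1, hA, fun _ _ _ => rfl, ?_, fun v hv => by simpa using hv⟩
    rintro i τ ⟨x, hx'⟩ hx
    obtain rfl := mem_bot.mp hx'
    have : (⟨_, hx⟩ : V i) = 1 := Subtype.ext (by simp)
    rw [this]
    simp
  · have := (normalCore_normal _).conj_mem _ hh (φ i₀ ω.1.out * σ i₀ (ω.2 i₀))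
    exact mem_bot.mp ((hV i₀ h).mp (by simpa [mul_assoc] using this))

/-- data for the infinite case -/
lemma data_infinite [Finite ι] [Infinite G₀] (hφ : ∀ i, Injective (φ i))
    (h₀ : VirtuallyCyclic G₀) (hvr : ∀ i, VirtualRetract (φ i).range) (i₀ : ι) :
    ∃ (V : Subgroup (G i₀)) (s : G i₀) (A₀ : Type) (_ : Group A₀) (α : V →* A₀),
      Ext φ i₀ V s ∧ IsAmenable A₀ ∧
      ∀ h (hh : s⁻¹ * φ i₀ h * s ∈ V), α ⟨_, hh⟩ = 1 → h = 1 := by
  classical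
  have := Fintype.ofFinite ι
  obtain ⟨C₁, hC₁, hC₁'⟩ := h₀
  choose K hK hKle ρ hρ using hvr
  obtain ⟨c, V, hc, hcfi, hVn, hVfi, -, hV, hl⟩ := exists_compatible φ C₁ K
    (fun i => (MonoidHom.ofInjective (hφ i)).symm.toMonoidHom.comp (ρ i))
    (fun i h => hKle i ⟨h, rfl⟩) (fun i h => by
      have := hρ i ⟨φ i h, h, rfl⟩
      simp only [MulEquiv.toMonoidHom_eq_coe, MonoidHom.comp_apply, MonoidHom.coe_coe]
      rw [MulEquiv.symm_apply_eq]
      exact this) (fun _ => ⊤)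
  choose l hl using hl
  choose T hT σ hσ using fun i => exists_section (φ i) (zpowers c) (V i) (hV i)
  have hcV : ∀ i, φ i c ∈ V i := fun i => (hV i c).mpr (mem_zpowers c)
  have hm : ∀ i (g : G i) (x : G₀), x ∈ zpowers c → g⁻¹ * φ i x * g ∈ V i := fun i g x hx => by
    simpa using (hVn i).conj_mem _ ((hV i x).mpr hx) g⁻¹
  choose α hα using fun i => exists_generic_conj (V i) (φ i c) (hcV i) (l i) (hl i _) (σ i)
  let ct : ∀ i, T i → V i := fun i t => ⟨_, hm i (σ i t) c (mem_zpowers c)⟩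
  let A : ∀ i, T i → ℤ := fun i t => (α i (ct i t)).toAdd
  have hA : ∀ i t, A i t ≠ 0 := fun i t h => hα i t _ (Multiplicative.toAdd.injective h)
  let a : ι → (∀ j, T j) → ℤ := fun i τ => ∏ j ∈ Finset.univ.erase i, A j (τ j)
  have ha : ∀ i τ, a i τ ≠ 0 := fun i τ => Finset.prod_ne_zero_iff.mpr (fun j _ => hA _ _)
  have hau : ∀ i τ t, a i (update τ i t) = a i τ := by
    intro i τ t
    refine Finset.prod_congr rfl (fun j hj => ?_)
    rw [update_of_ne (Finset.ne_of_mem_erase hj)]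
  have haA : ∀ i τ, a i τ * A i (τ i) = ∏ j, A j (τ j) := fun i τ => by
    rw [← Finset.mul_prod_erase _ _ (Finset.mem_univ i), mul_comm]
  have hct : ∀ i t (k : ℤ) (h : (σ i t)⁻¹ * φ i (c ^ k) * σ i t ∈ V i),
      (⟨_, h⟩ : V i) = ct i t ^ k := by
    intro i t k h
    apply Subtype.ext
    simp only [ct, map_zpow, SubgroupClass.coe_zpow]
    have := conj_zpow (a := (σ i t)⁻¹) (b := φ i c) (i := k)
    simpa using this.symm
  let ω : (G₀ ⧸ zpowers c) × ∀ j, T j := ((1 : G₀), fun j => (hσ j 1).exists.choose.2)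
  refine ⟨V i₀, _, Multiplicative ℤ, inferInstance, α i₀,
    ext_of_hom (zpowers c) V hV T σ hσ i₀ ω ?_, amenable_int, fun h hh e => ?_⟩
  · intro A' _ ψ hA'
    let π : V i₀ →* A' × Multiplicative ℤ := ψ.prod (α i₀ ^ (a i₀ ω.2))
    obtain ⟨B, _, κ, z, hB, hκ, hz⟩ := conj_all (hA'.prod amenable_int) (MonoidHom.snd _ _)
      (Set.range (fun t => π (ct i₀ t))) (Set.finite_range _) (by
        rintro _ ⟨t, rfl⟩
        simpa [π] using ⟨ha _ _, hA _ _⟩)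
    let J₀ : ∀ i, ℤ → V i →* B := fun i n => (zpowersHom B z).comp (α i ^ n)
    let J₁ : ∀ i, ℤ → V i →* B :=
      update J₀ i₀ (fun n => if n = a i₀ ω.2 then κ.comp π else J₀ i₀ n)
    have hJ₀ : ∀ i n t, J₀ i n (ct i t) = z ^ (n * A i t) := fun i n t => by
      simp [J₀, A]
    have hJ₁ : ∀ i n t, ∃ b : B, b⁻¹ * J₁ i n (ct i t) * b = z ^ (n * A i t) := by
      intro i n t
      by_cases hi : i = i₀
      · subst hi
        simp only [J₁, update_self]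
        split_ifs with hn
        · obtain ⟨u, hu⟩ := isConj_iff.mp (hz _ ⟨t, rfl⟩)
          refine ⟨u⁻¹, ?_⟩
          rw [inv_inv, MonoidHom.comp_apply, hu, hn]
          simp [π, A]
        · exact ⟨1, by rw [hJ₀]; simp⟩
      · simp only [J₁, update_of_ne hi]
        exact ⟨1, by rw [hJ₀]; simp⟩
    choose b hb using hJ₁
    let w : (∀ j, T j) → zpowers c →* B := fun τ => MonoidHom.mk'
      (fun x => J₀ i₀ (a i₀ τ) ⟨_, hm i₀ (σ i₀ (τ i₀)) x x.2⟩) (by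
        intro x y
        rw [← map_mul]
        congr 1
        apply Subtype.ext
        simp only [coe_mul, map_mul]
        group)
    refine ⟨B, inferInstance, fun i τ => J₁ i (a i τ), fun i τ => b i (a i τ) (τ i), w, hB,
      fun i τ t => congrArg (J₁ i) (hau i τ t), ?_, fun v hv => ?_⟩
    · rintro i τ ⟨x, hx'⟩ hx
      obtain ⟨k, rfl⟩ := mem_zpowers_iff.mp hx'
      simp only [w, MonoidHom.mk'_apply]
      rw [hct, hct, map_zpow, map_zpow, hJ₀, haA, ← haA i τ, ← hb]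
      have := conj_zpow (a := (b i (a i τ) (τ i))⁻¹) (b := J₁ i (a i τ) (ct i (τ i))) (i := k)
      simpa using this.symm
    · simp only [J₁, update_self, if_true, MonoidHom.comp_apply] at hv
      exact congrArg Prod.fst (hκ (hv.trans (map_one κ).symm))
  · have h1 : φ i₀ (ω.1.out⁻¹ * h * ω.1.out) ∈ V i₀ := by
      have := (hVn i₀).conj_mem _ hh (σ i₀ (ω.2 i₀))
      simpa [mul_assoc] using this
    obtain ⟨k, hk⟩ := mem_zpowers_iff.mp ((hV i₀ _).mp h1)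
    have e1 : (⟨_, hh⟩ : V i₀) = ct i₀ (ω.2 i₀) ^ k := by
      rw [← hct i₀ _ k (hm _ _ _ (zpow_mem_zpowers c k))]
      apply Subtype.ext
      simp only [hk, map_mul, map_inv]
      group
    rw [e1, map_zpow] at e
    have e2 := congrArg Multiplicative.toAdd e
    rw [toAdd_zpow, smul_eq_mul, toAdd_one, mul_eq_zero] at e2
    have e3 : k = 0 := e2.resolve_right (hA _ _)
    rw [e3, zpow_zero] at hk
    have : h = ω.1.out * (ω.1.out⁻¹ * h * ω.1.out) * ω.1.out⁻¹ := by group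
    rw [this, ← hk]
    group

theorem main [Finite ι] [Nonempty ι] (φ : ∀ i, G₀ →* G i) (hφ : ∀ i, Injective (φ i))
    (h₀ : VirtuallyCyclic G₀) (hG : ∀ i, ResiduallyAmenable (G i))
    (hvr : ∀ i, VirtualRetract (φ i).range) : ResiduallyAmenable (PushoutI φ) := by
  have hdata : ∀ i₀, ∃ (V : Subgroup (G i₀)) (s : G i₀) (A₀ : Type) (_ : Group A₀) (α : V →* A₀),
      Ext φ i₀ V s ∧ IsAmenable A₀ ∧
      ∀ h (hh : s⁻¹ * φ i₀ h * s ∈ V), α ⟨_, hh⟩ = 1 → h = 1 := by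
    intro i₀
    cases finite_or_infinite G₀
    · exact data_finite hφ hvr i₀
    · exact data_infinite hφ h₀ hvr i₀
  intro g hg
  obtain ⟨h, rfl | ⟨n, i, l, w, hw, rfl⟩⟩ := normal_form g
  · obtain ⟨i₀⟩ := ‹Nonempty ι›
    obtain ⟨V, s, A₀, _, α, h1, h2, h3⟩ := hdata i₀
    obtain ⟨B, _, Θ, hB, hΘ⟩ := h1 A₀ α h2
    refine ⟨B, inferInstance, Θ, hB, fun hh => hg ?_⟩
    obtain ⟨h4, h5⟩ := hΘ (φ i₀ h) (by rw [PushoutI.of_apply_eq_base]; exact hh)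
    rw [h3 h h4 h5, map_one]
  · obtain ⟨A, _, Θ, hA, hΘ⟩ := sep_words (fun i x hx => by
      obtain ⟨V, s, A₀, _, α, h1, h2, h3⟩ := hdata i
      exact sep_of_ext i (hG i) V s h1 h2 α h3 x hx) n i l w hw
    refine ⟨A, inferInstance, Θ, hA, fun hh => hΘ.prop h⁻¹ ?_⟩
    rw [map_mul, mul_eq_one_iff_inv_eq] at hh
    rw [map_inv, map_inv, hh]

end Pool.Agent.P.MP_71554c_al
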