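import Pool.Agent.P.MP_71554c_al.Defs
import Pool.Agent.Lib.Amenable.Basic

set_option autoImplicit false

/-! An amalgam of two plane crystallographic groups that is not residually amenable. -/

namespace Pool.Agent.P.MP_71554c_al.Rank2

open Pool.Agent.Lib.Amenable Function Subgroup Monoid Multiplicative

abbrev N := Multiplicative (ℤ × ℤ)

lemma e_pow {A : Type} [Group A] (e : N →* A) (x y k : ℤ) :
    e (ofAdd (x, y)) ^ k = e (ofAdd (k * x, k * y)) := by
  rw [← map_zpow, ← ofAdd_zsmul]; rfl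

lemma e_mul {A : Type} [Group A] (e : N →* A) (x y x' y' : ℤ) :
    e (ofAdd (x, y)) * e (ofAdd (x', y')) = e (ofAdd (x + x', y + y')) := by
  rw [← map_mul]; rfl

/-- The slope `x / y` lies in `[-1, 2)`. -/
def Q (x y : ℤ) : Prop := -(y * y) ≤ x * y ∧ x * y < 2 * (y * y)

lemma Q_scale {k x y : ℤ} (hk : 0 < k) : Q (k * x) (k * y) ↔ Q x y := by
  have h := mul_pos hk hk
  unfold Q
  rw [show k * x * (k * y) = k * k * (x * y) by ring, show -(k * y * (k * y)) = k * k * -(y * y) by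
    ring, show 2 * (k * y * (k * y)) = k * k * (2 * (y * y)) by ring, mul_le_mul_iff_right₀ h,
    mul_lt_mul_iff_right₀ h]

lemma Q_iff (x y : ℤ) : Q x y ↔ (0 < y ∧ -y ≤ x ∧ x < 2 * y) ∨ (y < 0 ∧ x ≤ -y ∧ 2 * y < x) := by
  unfold Q
  constructor
  · rintro ⟨h1, h2⟩
    rcases lt_trichotomy y 0 with h | rfl | h
    · exact Or.inr ⟨h, by nlinarith, by nlinarith⟩
    · simp at h2
    · exact Or.inl ⟨h, by nlinarith, by nlinarith⟩
  · rintro (⟨h, h1, h2⟩ | ⟨h, h1, h2⟩) <;> constructor <;> nlinarith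

theorem core {A : Type} [Group A] (hA : IsAmenable A) (e1 e2 : N →* A) (s t : A)
    (h12 : ∀ x y, e1 (ofAdd (x, y)) = e2 (ofAdd (x, 2 * y)))
    (hs : ∀ x y, s * e1 (ofAdd (x, y)) * s⁻¹ = e1 (ofAdd (-y, x - y)))
    (ht : ∀ x y, t * e2 (ofAdd (x, y)) * t⁻¹ = e2 (ofAdd (y, x)))
    (s3 : s⁻¹ = s * s) (t2 : t⁻¹ = t) :
    Commute (e2 (ofAdd (0, 1))) (s * e2 (ofAdd (0, 1)) * s⁻¹) := by
  by_cases hi : ∃ x y : ℤ, (x ≠ 0 ∨ y ≠ 0) ∧ e1 (ofAdd (x, y)) = 1
  · obtain ⟨x, y, h0, h1⟩ := hi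
    have h2 : e1 (ofAdd (-y, x - y)) = 1 := by rw [← hs, h1]; simp
    have h3 : e1 (ofAdd (1, 0)) ^ (x * (x - y) + y * y) = 1 := by
      have := e_mul e1 ((x - y) * x) ((x - y) * y) (-y * -y) (-y * (x - y))
      rw [← e_pow, ← e_pow, h1, h2, one_zpow, one_zpow, one_mul] at this
      rw [e_pow, this]
      congr 3 <;> ring
    have h4 : IsOfFinOrder (e1 (ofAdd (1, 0))) := isOfFinOrder_iff_zpow_eq_one.2 ⟨_, by
      rcases h0 with h | h
      · have := mul_self_pos.2 h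
        nlinarith [sq_nonneg (x - 2 * y)]
      · have := mul_self_pos.2 h
        nlinarith [sq_nonneg (2 * x - y)], h3⟩
    have o : ∀ g x : A, orderOf (g * x * g⁻¹) = orderOf x := fun g x =>
      (MulAut.conj g).orderOf_eq x
    have o1 : orderOf (e2 (ofAdd (0, 1))) = orderOf (e1 (ofAdd (1, 0))) := by
      rw [← ht, o, h12]; simp
    have u2 : e2 (ofAdd (0, 1)) ^ 2 = e1 (ofAdd (0, 1)) := by
      rw [h12, sq, e_mul]; rfl
    have o2 : orderOf (e2 (ofAdd (0, 1)) ^ 2) = orderOf (e1 (ofAdd (1, 0))) := by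
      rw [u2, ← o s (e1 (ofAdd (1, 0))), hs]
      rfl
    have hm : e2 (ofAdd (0, 1)) ∈ zpowers (e2 (ofAdd (0, 1)) ^ 2) := by
      have hf : IsOfFinOrder (e2 (ofAdd (0, 1))) := orderOf_pos_iff.1 (o1 ▸ h4.orderOf_pos)
      have := hf.finite_zpowers.to_subtype
      have := eq_of_le_of_card_ge (H := zpowers (e2 (ofAdd (0, 1)) ^ 2))
        (K := zpowers (e2 (ofAdd (0, 1)))) (by simp)
        (by rw [Nat.card_zpowers, Nat.card_zpowers, o1, o2])
      rw [this]
      exact mem_zpowers _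
    obtain ⟨k, hk⟩ := mem_zpowers_iff.1 hm
    rw [← hk, u2, e_pow, hs]
    exact (Commute.all _ _).map e1
  exfalso
  have inj : ∀ x y x' y', e1 (ofAdd (x, y)) = e1 (ofAdd (x', y')) → x = x' ∧ y = y' := by
    intro x y x' y' h
    by_contra hn
    refine hi ⟨x - x', y - y', by omega, ?_⟩
    have := e_mul e1 (x - x') (y - y') x' y'
    rwa [sub_add_cancel, sub_add_cancel, h, mul_eq_right] at this
  let R : A → ℤ → ℤ → Prop := fun g x y => (x ≠ 0 ∨ y ≠ 0) ∧ ∃ k : ℤ, 0 < k ∧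
    g * e1 (ofAdd (1, 0)) ^ k * g⁻¹ = e1 (ofAdd (x, y))
  have Rs : ∀ g x y, R g x y → R (s * g) (-y) (x - y) := by
    rintro g x y ⟨h0, k, hk, h⟩
    exact ⟨by omega, k, hk, by rw [← hs, ← h]; group⟩
  have Rt : ∀ g x y, R g x y → R (t * g) (4 * y) x := by
    rintro g x y ⟨h0, k, hk, h⟩
    refine ⟨by omega, k * 2, by omega, ?_⟩
    have : t * g * e1 (ofAdd (1, 0)) ^ (k * 2) * (t * g)⁻¹ =
        (t * (g * e1 (ofAdd (1, 0)) ^ k * g⁻¹) * t⁻¹) ^ (2 : ℤ) := by
      rw [conj_zpow, conj_zpow]; group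
    rw [this, h, h12, ht, e_pow, h12]
    congr 3; ring
  have RQ : ∀ g x y x' y', R g x y → R g x' y' → Q x y → Q x' y' := by
    rintro g x y x' y' ⟨-, k, hk, h⟩ ⟨-, k', hk', h'⟩ hq
    have : e1 (ofAdd (x, y)) ^ k' = e1 (ofAdd (x', y')) ^ k := by
      rw [← h, ← h', conj_zpow, conj_zpow, ← zpow_mul, ← zpow_mul, mul_comm k]
    rw [e_pow, e_pow] at this
    obtain ⟨a1, a2⟩ := inj _ _ _ _ this
    rwa [← Q_scale hk, ← a1, ← a2, Q_scale hk']
  have ex : ∀ g ∈ closure {s, t}, ∃ x y, R g x y := by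
    intro g hg
    induction hg using closure_induction_left with
    | one => exact ⟨1, 0, by simp, 1, one_pos, by simp⟩
    | mul_left x hx y _ ih =>
      obtain ⟨a, b, h⟩ := ih
      rcases hx with rfl | rfl
      exacts [⟨_, _, Rs _ _ _ h⟩, ⟨_, _, Rt _ _ _ h⟩]
    | inv_mul_cancel x hx y _ ih =>
      obtain ⟨a, b, h⟩ := ih
      rcases hx with rfl | rfl
      · rw [s3, mul_assoc]
        exact ⟨_, _, Rs _ _ _ (Rs _ _ _ h)⟩
      · rw [t2]
        exact ⟨_, _, Rt _ _ _ h⟩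
  obtain ⟨μ, m0, m1, m2, m3⟩ := hA.subgroup (closure {s, t})
  have mono : ∀ X Y, X ⊆ Y → μ X ≤ μ Y := fun X Y h => by
    have := m2 X (Y \ X) Set.disjoint_sdiff_right
    rw [Set.union_sdiff_cancel h] at this
    linarith [m0 (Y \ X)]
  let S : closure {s, t} := ⟨s, subset_closure (by simp)⟩
  let T : closure {s, t} := ⟨t, subset_closure (by simp)⟩
  let U : Set (closure {s, t}) := {g | ∃ x y, R g x y ∧ Q x y}
  have a1 : (fun g => T * g) '' U ⊆ Uᶜ := by
    rintro _ ⟨g, ⟨x, y, h, hq⟩, rfl⟩ ⟨x', y', h', hq'⟩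
    have := RQ _ _ _ _ _ h' (Rt _ _ _ h) hq'
    rw [Q_iff] at this hq
    omega
  have a2 : ∀ g ∈ Uᶜ, S * g ∈ U ∧ S * S * g ∈ U := fun g hg => by
    obtain ⟨x, y, h⟩ := ex g g.2
    have hq : ¬Q x y := fun hq => hg ⟨x, y, h, hq⟩
    have h0 := h.1
    rw [Q_iff] at hq
    rw [mul_assoc]
    exact ⟨⟨_, _, Rs _ _ _ h, by rw [Q_iff]; omega⟩,
      _, _, Rs _ _ _ (Rs _ _ _ h), by rw [Q_iff]; omega⟩
  have b1 := mono _ _ a1
  have b2 := mono ((fun g => S * g) '' Uᶜ ∪ (fun g => S * S * g) '' Uᶜ) U (by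
    rintro _ (⟨g, hg, rfl⟩ | ⟨g, hg, rfl⟩)
    exacts [(a2 g hg).1, (a2 g hg).2])
  rw [m2 _ _ (Set.disjoint_left.2 (by
    rintro _ ⟨g, hg, rfl⟩ ⟨g', hg', e⟩
    simp only [mul_assoc, mul_right_inj] at e
    exact hg (e ▸ (a2 g' hg').1))), m3, m3] at b2
  have b3 := m2 U Uᶜ disjoint_compl_right
  rw [Set.union_compl_self, m1] at b3
  rw [m3] at b1
  linarith [m0 Uᶜ]

/-- The rotation of order three and the flip. -/
def σ : Bool → MulAut N
  | false =>
    { toFun := fun v => ofAdd (-v.toAdd.2, v.toAdd.1 - v.toAdd.2)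
      invFun := fun v => ofAdd (v.toAdd.2 - v.toAdd.1, -v.toAdd.1)
      left_inv := fun v => by ext <;> simp
      right_inv := fun v => by ext <;> simp
      map_mul' := fun v w => by ext <;> simp <;> ring }
  | true =>
    { toFun := fun v => ofAdd (v.toAdd.2, v.toAdd.1)
      invFun := fun v => ofAdd (v.toAdd.2, v.toAdd.1)
      left_inv := fun v => rfl
      right_inv := fun v => rfl
      map_mul' := fun v w => rfl }

lemma σ3 : σ false ^ 3 = 1 := by
  ext v <;> simp [σ, pow_succ]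
  ring

lemma σ2 : σ true ^ 2 = 1 := rfl

instance (i : Bool) : Finite (zpowers (σ i)) := by
  refine (IsOfFinOrder.finite_zpowers (isOfFinOrder_iff_pow_eq_one.2 ?_)).to_subtype
  cases i
  exacts [⟨3, by norm_num, σ3⟩, ⟨2, by norm_num, σ2⟩]

abbrev Gr (i : Bool) : Type := N ⋊[(zpowers (σ i)).subtype] zpowers (σ i)

/-- The embeddings of the lattice. -/
def ph (i : Bool) : N →* Gr i := SemidirectProduct.inl.comp (MonoidHom.mk'
  (fun v => ofAdd (v.toAdd.1, (if i then 2 else 1) * v.toAdd.2)) fun v w => by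
    ext <;> simp [mul_add])

lemma ph_apply (i : Bool) (x y : ℤ) :
    ph i (ofAdd (x, y)) = SemidirectProduct.inl (ofAdd (x, (if i then 2 else 1) * y)) := rfl

lemma ph_inj (i : Bool) : Injective (ph i) := fun v w h => by
  have := congrArg toAdd (SemidirectProduct.inl_injective h)
  simp only [MonoidHom.mk'_apply, toAdd_ofAdd, Prod.mk.injEq] at this
  refine toAdd.injective (Prod.ext this.1 (mul_left_cancel₀ ?_ this.2))
  cases i <;> simp

lemma gr_amenable (i : Bool) : IsAmenable (Gr i) := by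
  refine amenable_of_ker SemidirectProduct.rightHom amenable_of_finite ?_
  rw [← SemidirectProduct.range_inl_eq_ker_rightHom]
  exact ((amenable_int.prod amenable_int).of_surjective
    (MulEquiv.prodMultiplicative ℤ ℤ).symm.toMonoidHom (MulEquiv.surjective _)).of_surjective _
    (MonoidHom.rangeRestrict_surjective _)

lemma ph_fi (i : Bool) : (ph i).range.FiniteIndex := by
  refine @finiteIndex_of_finite_quotient _ _ _ (Finite.of_surjective
    (fun p : zpowers (σ i) × Fin 2 => ((SemidirectProduct.inr p.1 *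
      SemidirectProduct.inl (ofAdd ((0 : ℤ), (p.2 : ℤ))) : Gr i) : Gr i ⧸ (ph i).range)) ?_)
  intro q
  obtain ⟨g, rfl⟩ := QuotientGroup.mk_surjective q
  obtain ⟨v, hv⟩ : ∃ v : N, g = SemidirectProduct.inr g.right * SemidirectProduct.inl v :=
    ⟨(g.right⁻¹ : zpowers (σ i)).1 g.left, by ext <;> simp⟩
  refine ⟨(g.right, ⟨(v.toAdd.2 % 2).toNat, by omega⟩), QuotientGroup.eq.2 ?_⟩
  refine ⟨ofAdd (v.toAdd.1, (if i then 1 else 2) * (v.toAdd.2 / 2)), ?_⟩
  rw [ph_apply, eq_inv_mul_iff_mul_eq, mul_assoc, ← map_mul]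
  conv_rhs => rw [hv]
  congr 2
  ext
  · simp
  · cases i <;> simp <;> omega

theorem not_ra : ¬ ResiduallyAmenable (PushoutI ph) := by
  intro h
  let s : Gr false := SemidirectProduct.inr ⟨σ false, mem_zpowers _⟩
  let t : Gr true := SemidirectProduct.inr ⟨σ true, mem_zpowers _⟩
  let u : Gr true := SemidirectProduct.inl (ofAdd (0, 1))
  have hs : s ∉ (ph false).range := by
    rintro ⟨v, hv⟩
    have h1 : (1 : MulAut N) = σ false := congrArg (fun g : Gr false => g.right.1) hv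
    have := congrArg (fun f : MulAut N => (f (ofAdd (1, 0))).toAdd.1) h1
    simp [σ] at this
  have hu : u ∉ (ph true).range := by
    rintro ⟨v, hv⟩
    have := congrArg (fun g : Gr true => g.left.toAdd.2) hv
    simp [ph, u] at this
    omega
  have n1 : ∀ {i} {x : Gr i}, x ∉ (ph i).range → x ≠ 1 := fun hx e => hx (e ▸ one_mem _)
  have hs' : s⁻¹ ∉ (ph false).range := by rwa [inv_mem_iff]
  have hu' : u⁻¹ ∉ (ph true).range := by rwa [inv_mem_iff]
  let w : CoprodI.Word Gr :=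
    ⟨[⟨true, u⟩, ⟨false, s⟩, ⟨true, u⟩, ⟨false, s⁻¹⟩, ⟨true, u⁻¹⟩, ⟨false, s⟩, ⟨true, u⁻¹⟩,
      ⟨false, s⁻¹⟩], by
        simp only [List.forall_mem_cons]
        exact ⟨n1 hu, n1 hs, n1 hu, n1 hs', n1 hu', n1 hs, n1 hu', n1 hs', by simp⟩, by simp⟩
  have hw : PushoutI.Reduced ph w := by
    simp only [PushoutI.Reduced, w, List.forall_mem_cons]
    exact ⟨hu, hs, hu, hs', hu', hs, hu', hs', by simp⟩
  obtain ⟨A, _, f, hA, hf⟩ := h (PushoutI.ofCoprodI w.prod) fun e => by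
    have := hw.eq_empty_of_mem_range ph_inj (e ▸ one_mem _)
    simp [w, CoprodI.Word.empty] at this
  let F : ∀ i, Gr i →* A := fun i => f.comp (PushoutI.of i)
  have c := core hA ((F false).comp SemidirectProduct.inl) ((F true).comp SemidirectProduct.inl)
    (F false s) (F true t) (fun x y => by
      have a := ph_apply false x y
      have b := ph_apply true x y
      simp only [Bool.false_eq_true, if_false, one_mul, if_true] at a b
      simp only [F, MonoidHom.comp_apply, ← a, ← b, PushoutI.of_apply_eq_base])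
    (fun x y => by
      simp only [MonoidHom.comp_apply, ← map_inv, ← map_mul, s, ← SemidirectProduct.inl_aut]
      rfl)
    (fun x y => by
      simp only [MonoidHom.comp_apply, ← map_inv, ← map_mul, t, ← SemidirectProduct.inl_aut]
      rfl)
    (by
      simp only [← map_inv, ← map_mul, s]
      congr 2
      refine Subtype.ext (inv_eq_of_mul_eq_one_right ?_)
      simpa [pow_succ, mul_assoc] using σ3)
    (by simp only [← map_inv, t]; rfl)
  apply hf
  have c' : F true u * (F false s * F true u * (F false s)⁻¹) =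
      F false s * F true u * (F false s)⁻¹ * F true u := c
  simp only [w, CoprodI.Word.prod, List.map_cons, List.prod_cons, List.prod_nil, List.map_nil,
    map_mul, PushoutI.ofCoprodI_of, map_inv, mul_one]
  change F true u * (F false s * (F true u * ((F false s)⁻¹ * ((F true u)⁻¹ * (F false s *
    ((F true u)⁻¹ * (F false s)⁻¹)))))) = 1
  calc _ = F true u * (F false s * F true u * (F false s)⁻¹) *
        (F false s * F true u * (F false s)⁻¹ * F true u)⁻¹ := by group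
    _ = 1 := by rw [c', mul_inv_cancel]

theorem main : ∃ (G : Bool → Type) (_ : ∀ i, Group (G i)) (φ : ∀ i, N →* G i),
    (∀ i, Injective (φ i)) ∧ (∀ i, (φ i).range.FiniteIndex) ∧ (∀ i, IsAmenable (G i)) ∧
    (∀ i, ResiduallyAmenable (G i)) ∧ (∀ i, VirtualRetract (φ i).range) ∧
    ¬ ResiduallyAmenable (PushoutI φ) :=
  ⟨Gr, inferInstance, ph, ph_inj, ph_fi, gr_amenable,
    fun i _ hg => ⟨Gr i, inferInstance, MonoidHom.id _, gr_amenable i, hg⟩,
    fun i => ⟨_, ph_fi i, le_rfl, MonoidHom.id _, fun _ => rfl⟩, not_ra⟩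

end Pool.Agent.P.MP_71554c_al.Rank2
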