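import Pool.Agent.Lib.Amenable.Basic
import Pool.Agent.Lib.Amalgam.Wr

set_option autoImplicit false

namespace Pool.Agent.P.MP_71554c_al

open Pool.Agent.Lib.Amalgam Pool.Agent.Lib.Amenable Function Subgroup

lemma amenable_of_le {G : Type} [Group G] {H K : Subgroup G} (h : H ≤ K) (hK : IsAmenable K) :
    IsAmenable H :=
  hK.of_injective (inclusion h) (inclusion_injective h)

lemma amenable_range {G H : Type} [Group G] [Group H] (hG : IsAmenable G) (f : G →* H) :
    IsAmenable f.range :=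
  hG.of_surjective f.rangeRestrict f.rangeRestrict_surjective

lemma amenable_zpowers {G : Type} [Group G] (g : G) : IsAmenable (zpowers g) := by
  rw [← range_zpowersHom]
  exact amenable_range amenable_int _

/-- a subgroup of a wreath product is amenable if its top and bottom parts are -/
lemma amenable_sub_wr {Ω B : Type} [Group B] (E : Subgroup (Wr Ω B))
    (P : Subgroup (Equiv.Perm Ω)) (N : Subgroup (Ω → B)) (hP : IsAmenable P) (hN : IsAmenable N)
    (h1 : ∀ w ∈ E, w.p ∈ P) (h2 : ∀ w ∈ E, w.p = 1 → w.f ∈ N) : IsAmenable E := by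
  refine amenable_of_ker (Wr.perm.comp E.subtype) (amenable_of_le ?_ hP) ?_
  · rintro _ ⟨w, rfl⟩
    exact h1 w w.2
  · refine hN.of_injective (MonoidHom.mk' (fun w => ⟨w.1.1.f, h2 _ w.1.2 w.2⟩) ?_) ?_
    · intro a b
      apply Subtype.ext
      funext ω
      have hb : b.1.1.p = 1 := b.2
      simp [hb]
    · intro a b h
      have ha : a.1.1.p = 1 := a.2
      have hb : b.1.1.p = 1 := b.2
      apply Subtype.ext
      apply Subtype.ext
      exact Wr.ext (congrArg Subtype.val h) (ha.trans hb.symm)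

lemma amenable_wr {Ω B : Type} [Group B] [Finite Ω] (hB : IsAmenable B) :
    IsAmenable (Wr Ω B) :=
  (amenable_sub_wr ⊤ ⊤ ⊤ amenable_of_finite ((hB.pi Ω).subgroup ⊤) (fun _ _ => trivial)
    (fun _ _ _ => trivial)).of_surjective (⊤ : Subgroup (Wr Ω B)).subtype
    (fun w => ⟨⟨w, trivial⟩, rfl⟩)

/-- adjoining a root -/
lemma exists_root {D : Type} [Group D] (hD : IsAmenable D) (c : D) (m : ℤ) (hm : m ≠ 0) :
    ∃ (D' : Type) (_ : Group D') (j : D →* D') (y : D'),
      IsAmenable D' ∧ Injective j ∧ y ^ m = j c := by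
  have hn : 0 < |m| := abs_pos.mpr hm
  generalize hN : |m| = n at hn
  let Θ : Multiplicative ℤ →* Wr (Set.Ico (0 : ℤ) n) D := Wr.ofCocycle
    (fun k ω => ⟨(ω.1 + k.toAdd) % n, Int.emod_nonneg _ hn.ne', Int.emod_lt_of_pos _ hn⟩)
    (fun k ω => c ^ ((ω.1 + k.toAdd) / n))
    (fun ω => Subtype.ext (by simpa using Int.emod_eq_of_lt ω.2.1 ω.2.2))
    (fun k l ω => Subtype.ext (by
      simp only [toAdd_mul, Int.emod_add_emod]
      congr 1
      ring))
    (fun k l ω => by
      rw [← zpow_add]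
      congr 1
      simp only [toAdd_mul]
      have e : ω.1 + (k.toAdd + l.toAdd) =
          ((ω.1 + l.toAdd) % n + k.toAdd) + ((ω.1 + l.toAdd) / n) * n := by
        have := Int.emod_add_ediv_mul (ω.1 + l.toAdd) n
        linarith
      rw [e, Int.add_mul_ediv_right _ _ hn.ne'])
  refine ⟨_, inferInstance, Wr.inl.comp (MonoidHom.mk' (fun d _ => d) (fun _ _ => rfl)),
    Θ (Multiplicative.ofAdd m.sign), amenable_wr hD, ?_, ?_⟩
  · intro a b h
    exact congrFun (congrArg Wr.f h) ⟨0, le_rfl, hn⟩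
  · rw [← map_zpow, ← ofAdd_zsmul, smul_eq_mul, Int.mul_sign_self, Int.natCast_natAbs, hN]
    ext ω
    · change c ^ ((ω.1 + n) / n) = c
      have : (ω.1 + n) / n = 1 := by
        have e : ω.1 + n = ω.1 + 1 * n := by ring
        rw [e, Int.add_mul_ediv_right _ _ hn.ne', Int.ediv_eq_zero_of_lt ω.2.1 ω.2.2, zero_add]
      rw [this, zpow_one]
    · change (ω.1 + n) % n = ω.1
      rw [Int.add_emod_right, Int.emod_eq_of_lt ω.2.1 ω.2.2]

instance finSupp_normal (X G : Type) [Group G] : (finSupp X G).Normal :=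
  ⟨fun f hf g => Set.Finite.subset hf (fun x hx h => hx (by simp [h]))⟩

/-- the Hilbert hotel -/
lemma swindle {A D : Type} [Group A] [Group D] (hD : IsAmenable D) (ι : A →* D)
    (hι : Injective ι) (α : A →* Multiplicative ℤ) (z y : D) :
    ∃ (D' : Type) (_ : Group D') (ι' : A →* D') (z' : D'), IsAmenable D' ∧ Injective ι' ∧
      (∀ x, IsConj (ι x) (z ^ (α x).toAdd) → IsConj (ι' x) (z' ^ (α x).toAdd)) ∧
      (∀ x, ι x = y ^ (α x).toAdd → IsConj (ι' x) (z' ^ (α x).toAdd)) := by
  classical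
  let ζ : ℤ → D := fun i => if i < 0 then y else z
  have hζ : ∀ n : ℤ, {i | ζ (i + n) ≠ ζ i}.Finite := by
    intro n
    refine (Set.finite_Icc (-|n|) |n|).subset (fun i hi => ?_)
    by_contra hc
    apply hi
    simp only [Set.mem_Icc, not_and_or, not_le] at hc
    have := le_abs_self n
    have := neg_abs_le n
    simp only [ζ]
    rcases hc with hc | hc
    · rw [if_pos (by omega), if_pos (by omega)]
    · rw [if_neg (by omega), if_neg (by omega)]
  let E : Subgroup (Wr ℤ D) :=
    { carrier := {w | (∃ n : ℤ, ∀ i, w.p i = i + n) ∧ ∃ k : ℤ, {i | w.f i ≠ ζ i ^ k}.Finite}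
      one_mem' := ⟨⟨0, by simp⟩, 0, by simp⟩
      mul_mem' := by
        rintro a b ⟨⟨n, hn⟩, k, hk⟩ ⟨⟨n', hn'⟩, k', hk'⟩
        refine ⟨⟨n' + n, fun i => by simp [hn, hn', add_assoc]⟩, k + k', ?_⟩
        refine (((hk.preimage (f := fun i => i + n') (add_left_injective n').injOn).union
          hk').union (hζ n')).subset (fun i hi => ?_)
        by_contra hc
        simp only [Set.mem_union, Set.mem_preimage, Set.mem_ofPred_eq, not_or, not_not] at hc
        apply hi
        rw [Wr.mul_f, hn', hc.1.1, hc.1.2, hc.2, zpow_add]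
      inv_mem' := by
        rintro a ⟨⟨n, hn⟩, k, hk⟩
        have hinv : ∀ i, a.p⁻¹ i = i + -n := fun i => by
          rw [Equiv.Perm.inv_eq_iff_eq, hn]; ring
        refine ⟨⟨-n, hinv⟩, -k, ?_⟩
        refine ((hk.preimage (f := fun i => i + -n) (add_left_injective (-n)).injOn).union
          (hζ (-n))).subset (fun i hi => ?_)
        by_contra hc
        simp only [Set.mem_union, Set.mem_preimage, Set.mem_ofPred_eq, not_or, not_not] at hc
        apply hi
        rw [Wr.inv_f, hinv, hc.1, hc.2, zpow_neg] }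
  let π := QuotientGroup.mk' (finSupp ℤ D)
  have hE : IsAmenable E := by
    refine amenable_sub_wr E (zpowers (Equiv.addRight (1 : ℤ))) ((zpowers (π ζ)).comap π)
      (amenable_zpowers _) ?_ ?_ ?_
    · refine amenable_of_ker (π.comp ((zpowers (π ζ)).comap π).subtype)
        (amenable_of_le ?_ (amenable_zpowers (π ζ))) ?_
      · rintro _ ⟨w, rfl⟩
        exact w.2
      · refine (hD.of_finSupp ℤ).of_injective
          (MonoidHom.mk' (fun w => ⟨w.1.1, (QuotientGroup.eq_one_iff _).mp w.2⟩)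
            (fun _ _ => rfl)) ?_
        intro a b h
        have h' : a.1.1 = b.1.1 := congrArg (fun w : finSupp ℤ D => w.1) h
        exact Subtype.ext (Subtype.ext h')
    · rintro w ⟨⟨n, hn⟩, -⟩
      refine mem_zpowers_iff.mpr ⟨n, ?_⟩
      ext i
      rw [Equiv.zsmul_addRight, hn]
      simp
    · rintro w ⟨-, k, hk⟩ -
      refine mem_zpowers_iff.mpr ⟨k, ?_⟩
      rw [← map_zpow]
      refine QuotientGroup.eq.mpr (hk.subset (fun i hi h => hi ?_))
      simp [h]
  let g : A → ℤ → D := fun x i =>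
    if i < 0 then y ^ (α x).toAdd else if i = 0 then ι x else z ^ (α x).toAdd
  have hg : ∀ x, Wr.inl (g x) ∈ E := fun x => ⟨⟨0, by simp⟩, (α x).toAdd,
    (Set.finite_singleton 0).subset (fun i hi => by
      by_contra hc
      apply hi
      simp only [Wr.inl_f, g, ζ, if_neg (show ¬ i = 0 from hc)]
      split_ifs <;> rfl)⟩
  have hz : Wr.inl ζ ∈ E := ⟨⟨0, by simp⟩, 1, by simp⟩
  refine ⟨E, inferInstance, MonoidHom.mk' (fun x => ⟨Wr.inl (g x), hg x⟩) (fun a b => ?_),
    ⟨Wr.inl ζ, hz⟩, hE, fun a b h => ?_, fun x hx => ?_, fun x hx => ?_⟩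
  · apply Subtype.ext
    simp only [coe_mul, ← map_mul]
    congr 1
    funext i
    simp only [g, Pi.mul_apply, map_mul, toAdd_mul, zpow_add]
    split_ifs <;> rfl
  · have := congrFun (congrArg (fun w : E => w.1.f) h) 0
    exact hι (by simpa [g] using this)
  · obtain ⟨u, hu⟩ := isConj_iff.mp hx
    have hu' : Wr.inl (Pi.mulSingle (0 : ℤ) u) ∈ E := ⟨⟨0, by simp⟩, 0,
      (Set.finite_singleton 0).subset (fun i hi => by
        by_contra hc
        apply hi
        simp [Pi.mulSingle_eq_of_ne (show i ≠ 0 from hc)])⟩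
    refine isConj_iff.mpr ⟨⟨_, hu'⟩, Subtype.ext ?_⟩
    simp only [MonoidHom.mk'_apply, coe_mul, coe_inv, SubgroupClass.coe_zpow, ← map_zpow,
      ← map_inv, ← map_mul]
    congr 1
    funext i
    by_cases h0 : i = 0
    · subst h0
      simp [g, ζ, hu]
    · simp only [Pi.mul_apply, Pi.inv_apply, Pi.mulSingle_eq_of_ne h0, one_mul, inv_one, mul_one,
        g, ζ, if_neg h0, Pi.pow_apply]
      split_ifs <;> rfl
  · have hs : (⟨fun _ => 1, Equiv.addRight (-1)⟩ : Wr ℤ D) ∈ E := ⟨⟨-1, by simp⟩, 0, by simp⟩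
    refine isConj_iff.mpr ⟨⟨_, hs⟩, Subtype.ext ?_⟩
    simp only [MonoidHom.mk'_apply, coe_mul, coe_inv, SubgroupClass.coe_zpow, ← map_zpow]
    rw [mul_inv_eq_iff_eq_mul]
    ext i
    · simp only [Wr.mul_f, Wr.inl_f, one_mul, mul_one, Equiv.coe_addRight, g, ζ, Pi.pow_apply]
      by_cases h1 : i < 0
      · rw [if_pos h1, if_pos (by omega)]
      · by_cases h2 : i = 0
        · rw [if_neg h1, if_pos h2, if_pos (by omega), hx]
        · rw [if_neg h1, if_neg h2, if_neg (by omega)]
    · simp only [Wr.mul_p, Wr.inl_p, mul_one, one_mul]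

/-- finitely many elements of nonzero height become conjugate to powers of one element -/
lemma conj_all {A : Type} [Group A] (hA : IsAmenable A) (α : A →* Multiplicative ℤ) (S : Set A)
    (hS : S.Finite) (h : ∀ s ∈ S, (α s).toAdd ≠ 0) :
    ∃ (B : Type) (_ : Group B) (ι : A →* B) (z : B), IsAmenable B ∧ Injective ι ∧
      ∀ s ∈ S, IsConj (ι s) (z ^ (α s).toAdd) := by
  induction S, hS using Set.Finite.induction_on with
  | empty => exact ⟨A, inferInstance, MonoidHom.id A, 1, hA, injective_id, by simp⟩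
  | @insert t S _ _ ih =>
    obtain ⟨B, _, ι, z, hB, hι, hc⟩ := ih (fun s hs => h s (Or.inr hs))
    obtain ⟨D, _, j, y, hD, hj, hy⟩ := exists_root hB (ι t) _ (h t (Or.inl rfl))
    obtain ⟨D', _, ι', z', hD', hι', h1, h2⟩ := swindle hD (j.comp ι) (hj.comp hι) α (j z) y
    refine ⟨D', inferInstance, ι', z', hD', hι', ?_⟩
    rintro s (rfl | hs)
    · exact h2 _ hy.symm
    · apply h1
      rw [← map_zpow]
      exact j.map_isConj (hc s hs)

end Pool.Agent.P.MP_71554c_al
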